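import Pool.Agent.H98.NX.Ef
import Pool.Agent.H98.NX.Eh
import Pool.Agent.H98.NX.Ek

/-!
MP_b319aa_NA, block X, sections M1-M5: definitions (helper46; no row).
-/

set_option autoImplicit false

namespace H46MB

open H50NA H98NX MeasureTheory Set Filter Topology Metric

variable {X : Type} [MetricSpace X]

/-- `f` is minimal up to `ep` among the maps which agree with `f` on `O \ B` -/
def EpM (f : ℂ → X) (B O : Set ℂ) (ep : ℝ) : Prop :=
  ∀ h : ℂ → X, Lpo h O → (∀ x ∈ O \ B, h x = f x) → en f B ≤ en h B + ep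

/-- the weight `(s^2 - |y - x|^2)_+ / 2` -/
noncomputable def zz (x : ℂ) (s : ℝ) (y : ℂ) : ℝ := max 0 (s ^ 2 - ‖y - x‖ ^ 2) / 2

/-- the squared distance -/
noncomputable def d2 (f g : ℂ → X) (y : ℂ) : ℝ := dist (f y) (g y) ^ 2

/-- the convexity gap -/
noncomputable def mg (f g : ℂ → X) (y : ℂ) : ℝ := mt f g 1 y + mt f g Complex.I y

end H46MB
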