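import Pool.Agent.H46.MB.Df

/-!
ROW Ga (MP_b319aa_NA, M1, M3: elementary facts on (near-)minimisers).
Facts from block NX (use only the statements): `sp_loc`, `sp_isom`, `sp_const`, `sp_nonneg` (Eb), `lpo_loc`, `lpo_congr`, `lpo_isom`, `lpo_mono`, `lpo_const` (Ea), `sp_sq_int` (Ee, with `mu = volume`).
PROOF. `epm_of_lm`: definition. `epm_le`: `ep ≤ ep'`. `EpM.mono`: let `h = f` on `O \ B'`. Then `h = f` on `O \ B`, so `en f B ≤ en h B + ep`. `B \ B'` is contained in the open set `O \ B'`, on which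
`h = f` near every point, so the speeds agree (`sp_loc`); splitting the integrals over `B = B' ∪ (B \ B')` (integrable: `sp_sq_int`) gives `en f B' ≤ en h B' + ep`.
`lm_const`: `en` of a constant is `0 ≤ en g C` (`sp_const`). `epm_const`: same.
`lm_mono`: let `C ⊆ O'` be compact and `g` a competitor on `O'`; `g' = g` on `O'`, `f` off `O'`. `g'` is `Lpo` on `O` (`lpo_loc`: near points of `O'` it is `g`; near points of `O \ C` it is `f`), `g' = f` on `O \ C`,
and `en g' C = en g C` (`sp_loc`, `O'` open).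
`lm_isom`, `epm_isom`: for a competitor `h` of `e ∘ f` the map `e.symm ∘ h` is a competitor of `f`; `sp_isom`.
`en_nonneg`: integral of a nonnegative function.
-/

set_option autoImplicit false

namespace H46MB

open H50NA H98NX MeasureTheory Set Filter Topology Metric

variable {X : Type} [MetricSpace X]

theorem en_nonneg (f : ℂ → X) (S : Set ℂ) : 0 ≤ en f S := by
  sorry

theorem epm_of_lm {f : ℂ → X} {O C : Set ℂ} (h : LM f O) (hC : IsCompact C) (hCO : C ⊆ O) : EpM f C O 0 := by
  sorry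

theorem epm_le {f : ℂ → X} {O C : Set ℂ} {ep ep' : ℝ} (h : EpM f C O ep) (he : ep ≤ ep') : EpM f C O ep' := by
  sorry

theorem EpM.mono {f : ℂ → X} {O B B' : Set ℂ} {ep : ℝ} (hO : IsOpen O) (hf : Lpo f O) (hB : IsCompact B)
    (hBO : B ⊆ O) (hB' : IsClosed B') (hBB : B' ⊆ B) (h : EpM f B O ep) : EpM f B' O ep := by
  sorry

theorem lm_const (p : X) {O : Set ℂ} (hO : IsOpen O) : LM (fun _ : ℂ => p) O := by
  sorry

theorem lm_mono {f : ℂ → X} {O O' : Set ℂ} (h : LM f O) (hO : IsOpen O') (hs : O' ⊆ O) : LM f O' := by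
  sorry

theorem lm_isom {f : ℂ → X} {O : Set ℂ} (h : LM f O) (e : X ≃ᵢ X) : LM (fun z => e (f z)) O := by
  sorry

theorem epm_isom {f : ℂ → X} {O B : Set ℂ} {ep : ℝ} (h : EpM f B O ep) (e : X ≃ᵢ X) :
    EpM (fun z => e (f z)) B O ep := by
  sorry

end H46MB
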