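import Pool.Agent.H46.MB.Df

/-!
ROW Gb (MP_b319aa_NA, M3: affine changes of variables).
Facts from block NX (use only the statements): `sp_lin`, `sp_loc` (Eb), `sp_smul`, `sp_lim` (Ed), `md_ae`, `sp_rot` (Eh), `lpo_comp` (Ea), `sp_sq_int` (Ee).
PROOF. `en_trans`: `sp (f (· + a)) t z = sp f t (z + a)` (`sp_lin` with `L = id`) and translation invariance of the volume (`MeasurePreserving.setIntegral_preimage_emb` / `integral_image`).
`lm_trans`, `epm_trans`: `h` is a competitor of `f (· + a)` on `{z | z + a ∈ O}` iff `h (· - a)` is a competitor of `f` on `O`.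
`en_aff`: for `G z = a + c z`: `sp (f ∘ G) t z = sp f (c t) (G z)` (`sp_lin`); for a.e. `w ∈ O` (`md_ae`, `sp_rot`) `sp f c w ^ 2 + sp f (c I) w ^ 2 = ‖c‖^2 (sp f 1 w ^ 2 + sp f I w ^ 2)`; the Jacobian of `G` is
`‖c‖^2` (`MeasureTheory.integral_image_eq_integral_abs_det_fderiv_smul`; `Complex` multiplication by `c` has determinant `‖c‖^2`), preimages of null sets under `G` are null.
`en_aff_real`: the same for `c` real and positive with `sp_smul` (`sp f (c • t) w = |c| * sp f t w` for a.e. `w ∈ O` by `sp_lim`) instead of `md_ae`.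
`lm_aff`, `lm_scale`: `h` is a competitor of `f ∘ G` iff `h ∘ G⁻¹` is a competitor of `f` (`lpo_comp`; `G⁻¹ w = (w - a) / c`); images of compact sets are compact.
-/

set_option autoImplicit false

namespace H46MB

open H50NA H98NX MeasureTheory Set Filter Topology Metric

variable {X : Type} [MetricSpace X] {gm : X → X → ℝ → X}

theorem en_trans (f : ℂ → X) (a : ℂ) (S : Set ℂ) : en (fun z => f (z + a)) {z | z + a ∈ S} = en f S := by
  sorry

theorem lm_trans {f : ℂ → X} {O : Set ℂ} (h : LM f O) (a : ℂ) : LM (fun z => f (z + a)) {z | z + a ∈ O} := by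
  sorry

theorem epm_trans {f : ℂ → X} {O B : Set ℂ} {ep : ℝ} (h : EpM f B O ep) (a : ℂ) :
    EpM (fun z => f (z + a)) {z | z + a ∈ B} {z | z + a ∈ O} ep := by
  sorry

theorem en_aff (hX : Npc X gm) {f : ℂ → X} {O : Set ℂ} (hO : IsOpen O) (hf : Lpo f O) (a : ℂ) {c : ℂ} (hc : c ≠ 0)
    {S : Set ℂ} (hS : MeasurableSet S) (hSO : ∀ z ∈ S, a + c * z ∈ O) :
    en (fun z => f (a + c * z)) S = en f ((fun z => a + c * z) '' S) := by
  sorry

theorem en_aff_real {f : ℂ → X} {O : Set ℂ} (hO : IsOpen O) (hf : Lpo f O) (a : ℂ) {c : ℝ} (hc : 0 < c)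
    {S : Set ℂ} (hS : MeasurableSet S) (hSO : ∀ z ∈ S, a + (c : ℂ) * z ∈ O) :
    en (fun z => f (a + (c : ℂ) * z)) S = en f ((fun z => a + (c : ℂ) * z) '' S) := by
  sorry

theorem lm_aff (hX : Npc X gm) {f : ℂ → X} {O : Set ℂ} (h : LM f O) (a : ℂ) {c : ℂ} (hc : c ≠ 0) :
    LM (fun z => f (a + c * z)) {z | a + c * z ∈ O} := by
  sorry

theorem lm_scale {f : ℂ → X} {O : Set ℂ} (h : LM f O) (a : ℂ) {c : ℝ} (hc : 0 < c) :
    LM (fun z => f (a + (c : ℂ) * z)) {z | a + (c : ℂ) * z ∈ O} := by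
  sorry

end H46MB
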