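import Pool.Agent.H46.MB.Df

/-!
ROW Gc (MP_b319aa_NA, M1: first variation along the geodesics between two near-minimisers).
Facts from block NX (use only the statements): `sp_two`, `ip_good` (Ek), `lpo_gm`, `lpo_lip`, `lpo_dist`, `lpo_ball` (Ea), `sp_sq_int`, `lpo_nbhd`, `dist_sq_int` (Ee), `sp_meas`, `sp_le` (Eb), `sp_dist` (Ek).
PROOF. `f' = ip gm f g eta`, `g' = ip gm g f eta` are `Lpo` on `O` (`lpo_gm`), and equal to `f`, `g` on `O \ B` (`eta = 0`, `hX.zero`). So `en f B + en g B ≤ en f' B + en g' B + 2 ep`. All four energies are integrals of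
integrable functions on `B` (`sp_sq_int`), so `0 ≤ ∫_B (∑_t (sp f' t ^2 + sp g' t ^2 - sp f t ^2 - sp g t ^2)) + 2 ep` (`t = 1, I`), and `sp_two` (a.e. on `O` by `ip_good`) bounds the integrand by the integrand of the
claim. That one is integrable on `B` (lemma `var_int`): it is measurable (`sp_meas`, `measurable_fderiv_apply_const`) and bounded on `B` (speeds and `dd` are bounded on `B`; `|fderiv (dd f g) x t| ≤ sp f t x + sp g t x`
a.e., or by the local Lipschitz constant; `|fderiv eta x t| ≤ K ‖t‖`).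
-/

set_option autoImplicit false

namespace H46MB

open H50NA H98NX MeasureTheory Set Filter Topology Metric

variable {X : Type} [MetricSpace X] {gm : X → X → ℝ → X}

/-- the integrand of the first variation -/
noncomputable def vi (f g : ℂ → X) (eta : ℂ → ℝ) (x : ℂ) : ℝ :=
  -(2 * eta x * (1 - eta x) * mg f g x)
    - (1 - 2 * eta x) * (fderiv ℝ eta x 1 * (2 * dd f g x * fderiv ℝ (dd f g) x 1) +
        fderiv ℝ eta x Complex.I * (2 * dd f g x * fderiv ℝ (dd f g) x Complex.I))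
    + 2 * ((fderiv ℝ eta x 1) ^ 2 + (fderiv ℝ eta x Complex.I) ^ 2) * dd f g x ^ 2

theorem mg_int {f g : ℂ → X} {O B : Set ℂ} (hO : IsOpen O) (hB : IsCompact B) (hBO : B ⊆ O) (hf : Lpo f O)
    (hg : Lpo g O) : IntegrableOn (mg f g) B := by
  sorry

theorem var_int {f g : ℂ → X} {O B : Set ℂ} (hO : IsOpen O) (hB : IsCompact B) (hBO : B ⊆ O) (hf : Lpo f O)
    (hg : Lpo g O) {eta : ℂ → ℝ} {K : ℝ} (hK : ∀ x y, |eta x - eta y| ≤ K * dist x y)
    (h01 : ∀ x, 0 ≤ eta x ∧ eta x ≤ 1) : IntegrableOn (vi f g eta) B := by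
  sorry

theorem var_ineq (hX : Npc X gm) {f g : ℂ → X} {O B : Set ℂ} (hO : IsOpen O) (hB : IsCompact B) (hBO : B ⊆ O)
    (hf : Lpo f O) (hg : Lpo g O) {ep : ℝ} (hef : EpM f B O ep) (heg : EpM g B O ep) {eta : ℂ → ℝ} {K : ℝ}
    (hK : ∀ x y, |eta x - eta y| ≤ K * dist x y) (h01 : ∀ x, 0 ≤ eta x ∧ eta x ≤ 1)
    (h0 : ∀ x ∈ O, x ∉ B → eta x = 0) : 0 ≤ (∫ x in B, vi f g eta x) + 2 * ep := by
  sorry

end H46MB
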