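import Pool.Agent.H46.MB.Gc

/-!
ROW Gd (MP_b319aa_NA, M1: the first variation on a ball).
PROOF. `var_ineq` with `B = closedBall x r`, `eta = τ * zz x r` (Lipschitz, values in `[0, τ r^2 / 2] ⊆ [0, 1/2]`, zero off the ball). The sphere is a null set, so integrals over `closedBall x r` are integrals over
`ball x r` (`Metric.closedBall_ae_eq_ball`-type lemma / `Measure.addHaar_sphere`). For `y ∈ ball x r`: `zz x r y = (r^2 - ‖y-x‖^2)/2` near `y`, so `fderiv (τ zz) y t = - τ Re ((y - x) conj t)`: for `t = 1` it is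
`- τ Re (y - x)`, for `t = I` it is `- τ Im (y - x)`. At the points where `dd f g` is differentiable (a.e. in `O`: `lpo_diff` with `lpo_dist`), `fderiv (d2 f g) y = 2 dd (fderiv (dd f g) y)`, and
`fderiv (d2 f g) y (y - x) = Re (y-x) * fderiv (d2 f g) y 1 + Im (y - x) * fderiv (d2 f g) y I`. So the integrand of `var_ineq` is, a.e. in the ball,
`- 2 τ z (1 - τ z) mg + τ (1 - 2 τ z) fderiv (d2 f g) y (y - x) + 2 τ^2 ‖y - x‖^2 d2`. Divide by `τ`. Integrability of the pieces: all are bounded and measurable on the ball.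
`fd_int`: `y ↦ fderiv ℝ (d2 f g) y (y - x)` is integrable on `ball x s`, `closedBall x s ⊆ O`: measurable, and bounded by `L s`, `L` = Lipschitz constant of `d2 f g` on a neighbourhood.
-/

set_option autoImplicit false

namespace H46MB

open H50NA H98NX MeasureTheory Set Filter Topology Metric

variable {X : Type} [MetricSpace X] {gm : X → X → ℝ → X}

theorem fd_int {F : ℂ → ℝ} {O : Set ℂ} (hO : IsOpen O) (hF : Lpo F O) {x : ℂ} {s : ℝ} (hx : closedBall x s ⊆ O) :
    IntegrableOn (fun y => fderiv ℝ F y (y - x)) (ball x s) := by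
  sorry

theorem d2_lpo {f g : ℂ → X} {O : Set ℂ} (hO : IsOpen O) (hf : Lpo f O) (hg : Lpo g O) : Lpo (d2 f g) O := by
  sorry

theorem var_ball (hX : Npc X gm) {f g : ℂ → X} {O : Set ℂ} (hO : IsOpen O) (hf : Lpo f O) (hg : Lpo g O)
    {ep : ℝ} {x : ℂ} {r : ℝ} (hr : 0 < r) (hx : closedBall x r ⊆ O) (hef : EpM f (closedBall x r) O ep)
    (heg : EpM g (closedBall x r) O ep) {τ : ℝ} (hτ : 0 < τ) (hτr : τ * r ^ 2 ≤ 1) :
    2 * (∫ y in ball x r, zz x r y * (1 - τ * zz x r y) * mg f g y) ≤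
      (∫ y in ball x r, (1 - 2 * τ * zz x r y) * fderiv ℝ (d2 f g) y (y - x)) +
        2 * τ * (∫ y in ball x r, ‖y - x‖ ^ 2 * d2 f g y) + 2 * ep / τ := by
  sorry

end H46MB
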