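import Pool.Agent.H46.MB.Df

/-!
ROW Ge (MP_b319aa_NA, M2: derivative of ball averages; real analysis, no metric space).
PROOF. Scaling `y = x + s w`: `⨍_{ball x s} F = (1/π) ∫_{w ∈ ball 0 1} F (x + s w)`. For `w ∈ ball 0 1` the function `s ↦ F (x + s w)` is Lipschitz on `[r, R]` (the compact `closedBall x R ⊆ O`), so absolutely continuous:
`F (x + R w) - F (x + r w) = ∫_r^R deriv` (`LipschitzOnWith.absolutelyContinuousOnInterval`, `AbsolutelyContinuousOnInterval.integral_deriv_eq_sub`), and for a.e. `w`, for a.e. `s ∈ (r, R)`, `F` is differentiable at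
`x + s w` (`lpo_diff`; the set of `(w, s)` with `x + s w` in a measurable null set is null since for every fixed `s > 0` its slice is null), where the derivative is `fderiv F (x + s w) w`. Integrate over `w`, exchange
(bounded measurable integrand): `= (1/π) ∫_r^R ∫_{w ∈ ball 0 1} fderiv F (x + s w) w dw ds`, and substitute back `y = x + s w`: `∫_{w} fderiv F (x + s w) w = s^(-3) ∫_{y ∈ ball x s} fderiv F y (y - x)`.
`fd_cont`: `s ↦ ∫_{ball x s} h` is interval integrable: `h` integrable on `ball x R`; it is monotone for `h ≥ 0` (positive and negative parts), so measurable and bounded.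
-/

set_option autoImplicit false

namespace H46MB

open H50NA H98NX MeasureTheory Set Filter Topology Metric

theorem fd_cont {h : ℂ → ℝ} {x : ℂ} {r R : ℝ} (hr : 0 < r) (hrR : r ≤ R) (hh : IntegrableOn h (ball x R)) :
    IntervalIntegrable (fun s : ℝ => 1 / (Real.pi * s ^ 3) * ∫ y in ball x s, h y) volume r R := by
  sorry

theorem avg_deriv {F : ℂ → ℝ} {O : Set ℂ} (hO : IsOpen O) (hF : Lpo F O) {x : ℂ} {r R : ℝ} (hr : 0 < r)
    (hrR : r ≤ R) (hx : closedBall x R ⊆ O) :
    (⨍ y in ball x R, F y) - (⨍ y in ball x r, F y) =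
      ∫ s in r..R, 1 / (Real.pi * s ^ 3) * ∫ y in ball x s, fderiv ℝ F y (y - x) := by
  sorry

end H46MB
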