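import Pool.Agent.H46.MB.Ga
import Pool.Agent.H46.MB.Gd
import Pool.Agent.H46.MB.Ge

/-!
ROW Gf (MP_b319aa_NA, M2: the squared distance of two local minimisers is subharmonic).
PROOF. `m2_ball`: `var_ball` with `ep = 0` (`epm_of_lm`) for all `0 < τ ≤ 1/s^2`; let `τ → 0`: all integrands are bounded by fixed integrable functions (`|zz| ≤ s^2/2`), the three integrals depend on `τ` affinely:
`∫ z (1 - τ z) mg = ∫ z mg - τ ∫ z^2 mg`, `∫ (1 - 2 τ z) fderiv = ∫ fderiv - 2 τ ∫ z fderiv`; so the inequality `2 ∫ z mg ≤ ∫ fderiv (d2) y (y - x) + τ C` holds for small `τ > 0`, `C` independent of `τ`.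
`m2_strong`: integrate `m2_ball` against `1/(π s^3)` over `s ∈ [r, R]` (`avg_deriv`; interval integrability by `fd_cont` for `y ↦ fderiv (d2 f g) y (y - x)`; the left side `s ↦ 1/(π s^3) * (2 ∫_{ball x s} zz x s y * mg)` is
interval integrable too: `zz x s y = (s^2 - ‖y-x‖^2)/2` on `ball x s`, so it is a combination of `s^2 * ∫_{ball x s} mg` and `∫_{ball x s} ‖y-x‖^2 mg`, to which `fd_cont` applies).
`m2`: continuity by `d2_lpo` and `lpo_cont`; monotonicity by `m2_strong`, its right side being nonnegative (`mg ≥ 0`, `zz ≥ 0`, `r ≤ R`).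
-/

set_option autoImplicit false

namespace H46MB

open H50NA H98NX MeasureTheory Set Filter Topology Metric

variable {X : Type} [MetricSpace X] {gm : X → X → ℝ → X}

theorem m2_ball (hX : Npc X gm) {f g : ℂ → X} {O : Set ℂ} (hf : LM f O) (hg : LM g O) {x : ℂ} {s : ℝ} (hs : 0 < s)
    (hx : closedBall x s ⊆ O) :
    2 * (∫ y in ball x s, zz x s y * mg f g y) ≤ ∫ y in ball x s, fderiv ℝ (d2 f g) y (y - x) := by
  sorry

theorem m2_strong (hX : Npc X gm) {f g : ℂ → X} {O : Set ℂ} (hf : LM f O) (hg : LM g O) {x : ℂ} {r R : ℝ}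
    (hr : 0 < r) (hrR : r ≤ R) (hx : closedBall x R ⊆ O) :
    ∫ s in r..R, 1 / (Real.pi * s ^ 3) * (2 * ∫ y in ball x s, zz x s y * mg f g y) ≤
      (⨍ y in ball x R, dist (f y) (g y) ^ 2) - ⨍ y in ball x r, dist (f y) (g y) ^ 2 := by
  sorry

theorem m2 (hX : Npc X gm) {f g : ℂ → X} {O : Set ℂ} (hf : LM f O) (hg : LM g O) :
    SubH (fun z => dist (f z) (g z) ^ 2) O := by
  sorry

end H46MB
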