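import Pool.Agent.H46.MB.Ga
import Pool.Agent.H46.MB.Gd
import Pool.Agent.H46.MB.Ge

/-!
ROW Gg (MP_b319aa_NA, M2: near-minimal version).
PROOF. Let `r ≤ s ≤ R`, `τ = √ep` (`τ s^2 ≤ 1`), `F = d2 f g`. `EpM.mono` gives near-minimality on `closedBall x s`. In `var_ball` the left side is `≥ 0` (`0 ≤ zz`, `1 - τ zz ≥ 0`, `mg ≥ 0`), so
`∫ (1 - 2 τ z) fderiv F y (y-x) ≥ - 2 τ s^2 ∫_{ball x s} F - 2 √ep`. Also `2 τ ∫ z |fderiv F y (y - x)| ≤ τ s^2 ∫ |fderiv F y (y-x)|` (`z ≤ s^2/2`), and a.e. `|fderiv F y (y - x)| = 2 dd |fderiv dd y (y-x)|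
≤ 2 dd s (|∂_1 dd|^2 + |∂_I dd|^2)^{1/2} ≤ s (dd^2 + |∂_1 dd|^2 + |∂_I dd|^2)` and `|∂_t dd|^2 ≤ (sp f t + sp g t)^2 ≤ 2 sp f t ^2 + 2 sp g t ^2` (`sp_dist` with `ip_good` or `sp_lim` and `lpo_diff`). So
`∫_{ball x s} fderiv F y (y - x) ≥ - √ep (2 + 2 s^2 ∫ F + s^3 (∫ F + 2 en f + 2 en g))` with the integrals over `ball x s`, `≤` those over `ball x R`, `closedBall x R`. Insert this in `avg_deriv`:
`avg_R - avg_r ≥ - √ep Q ∫_r^R ds / (π s^3) ≥ - √ep Q R / r^3`.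
-/

set_option autoImplicit false

namespace H46MB

open H50NA H98NX MeasureTheory Set Filter Topology Metric

variable {X : Type} [MetricSpace X] {gm : X → X → ℝ → X}

theorem avg_near (hX : Npc X gm) {f g : ℂ → X} {O : Set ℂ} (hO : IsOpen O) (hf : Lpo f O) (hg : Lpo g O)
    {ep : ℝ} (hep : 0 < ep) {x : ℂ} {r R : ℝ} (hr : 0 < r) (hrR : r ≤ R) (hx : closedBall x R ⊆ O)
    (hef : EpM f (closedBall x R) O ep) (heg : EpM g (closedBall x R) O ep) (hR : √ep * R ^ 2 ≤ 1) :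
    (⨍ y in ball x r, dist (f y) (g y) ^ 2) ≤ (⨍ y in ball x R, dist (f y) (g y) ^ 2) +
      R / r ^ 3 * (2 + (2 * R ^ 2 + R ^ 3) * (∫ y in ball x R, dist (f y) (g y) ^ 2) +
        2 * R ^ 3 * (en f (closedBall x R) + en g (closedBall x R))) * √ep := by
  sorry

end H46MB
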