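import Pool.Agent.H46.MB.Ga
import Pool.Agent.H46.MB.Gb
import Pool.Agent.H46.MB.Gf
import Pool.Agent.H46.SB.Ma

/-!
ROW Gh (MP_b319aa_NA, M4: Lipschitz bound for local minimisers).
PROOF. `F z = dist (f (z + t)) (f z) ^ 2` is subharmonic on `O ∩ {z | z + t ∈ O}` (`m2` for `f (· + t)`, `lm_trans`, and `f`, `lm_mono`). `closedBall y (R/4)` lies in this set. So `F y ≤ ⨍_{ball y (R/4)} F` (`SubH.le_avg`,
`Pool/Agent/H46/SB/Ma.lean`) `= (16 / (π R^2)) ∫_{ball y (R/4)} F` (`Complex.volume_ball`), and `sp_int` (NX/Ee, `h = 1`, `S = ball y (R/4)`, `C' = closedBall x (3R/4)`) bounds the integral by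
`∫_{closedBall x (3R/4)} sp f t ^ 2 ≤ ‖t‖^2 en f (closedBall x R)` (for a.e. `z ∈ O`: `sp f t z ^ 2 ≤ ‖t‖^2 (sp f 1 z ^2 + sp f I z ^2)` by `md_ae`, `sp_rot` with `c = t`, dropping `sp f (t I) ^2`; monotonicity of the
integral in the set). `16 / π ≤ 6` (`Real.pi_gt_three`).
-/

set_option autoImplicit false

namespace H46MB

open H50NA H98NX MeasureTheory Set Filter Topology Metric

variable {X : Type} [MetricSpace X] {gm : X → X → ℝ → X}

theorem lip_lm (hX : Npc X gm) {f : ℂ → X} {O : Set ℂ} (hf : LM f O) {x : ℂ} {R : ℝ} (hR : 0 < R)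
    (hx : closedBall x R ⊆ O) {t y : ℂ} (ht : ‖t‖ ≤ R / 4) (hy : dist y x ≤ R / 4) :
    dist (f (y + t)) (f y) ^ 2 ≤ 6 * ‖t‖ ^ 2 * en f (closedBall x R) / R ^ 2 := by
  sorry

end H46MB
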