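import Pool.Agent.H46.MB.Ga
import Pool.Agent.H46.MB.Gb
import Pool.Agent.H46.MB.Gf
import Pool.Agent.H46.SB.Ma

/-!
ROW Gi (MP_b319aa_NA, M5: densities; statements of `Pool/Agent/H50/NA/XI.lean`).
PROOF. `s • t = (s : ℂ) * t` (`Complex.real_smul`). `dq_le`: `sp_int` (NX/Ee) with `S = ball x r`, `C' = closedBall x (r + s ‖t‖)`, and the sphere is null.
`avg_mono`: for small `h > 0` `closedBall x R ⊆ O ∩ {y | y + h t ∈ O}` (compactness: `IsCompact.exists_thickening_subset_open`); `F_h y = dist (f (y + h t)) (f y)^2` is subharmonic there (`m2`, `lm_trans`, `lm_mono`), so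
`⨍_{ball x r} F_h / h^2 ≤ ⨍_{ball x R} F_h / h^2`; let `h → 0+`: `sp_conv` (NX/Ef; `C = closedBall x R`, `S = ball x r`, resp. `ball x R`) and `⨍ = (measure)⁻¹ ∫`.
`dq_avg`: `F y = dist (f (y + s t)) (f y)^2` is subharmonic on `O ∩ {y | y + s t ∈ O} ⊇ closedBall x r`, so `F x ≤ ⨍_{ball x r} F` (`SubH.le_avg`). For a.e. `y ∈ ball x r`: `F y ≤ (∫_0^s sp f t (y + s' t) ds')^2 ≤
s ∫_0^s sp f t (y + s' t)^2 ds'` (`line_le`, NX/Ee, and Cauchy-Schwarz). Integrate over `ball x r`, exchange (bounded measurable), `∫_{ball x r} sp f t (y + s' t)^2 dy = ∫_{ball (x + s' t) r} sp f t ^2 ≤ A π r^2`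
(translation; `hA`). So `F x ≤ s * s * A`.
-/

set_option autoImplicit false

namespace H46MB

open H50NA H98NX MeasureTheory Set Filter Topology Metric

variable {X : Type} [MetricSpace X] {gm : X → X → ℝ → X}

theorem dq_le {f : ℂ → X} {O : Set ℂ} (hO : IsOpen O) (h : Lpo f O) (t : ℂ) {x : ℂ} {r s : ℝ}
    (hr : 0 < r) (hs : 0 < s) (hx : closedBall x (r + s * ‖t‖) ⊆ O) :
    ∫ y in ball x r, dist (f (y + (s : ℂ) * t)) (f y) ^ 2 ≤
      s ^ 2 * ∫ y in ball x (r + s * ‖t‖), sp f t y ^ 2 := by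
  sorry

theorem avg_mono (hX : Npc X gm) {f : ℂ → X} {O : Set ℂ} (h : LM f O) (t x : ℂ) {r R : ℝ}
    (hr : 0 < r) (hR : r ≤ R) (hx : closedBall x R ⊆ O) :
    (⨍ y in ball x r, sp f t y ^ 2) ≤ ⨍ y in ball x R, sp f t y ^ 2 := by
  sorry

theorem dq_avg (hX : Npc X gm) {f : ℂ → X} {O : Set ℂ} (h : LM f O) (t x : ℂ) {r s A : ℝ}
    (hr : 0 < r) (hs : 0 < s) (hx : closedBall x (r + s * ‖t‖) ⊆ O)
    (hA : ∀ s' : ℝ, 0 ≤ s' → s' ≤ s → (⨍ y in ball (x + (s' : ℂ) * t) r, sp f t y ^ 2) ≤ A) :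
    dist (f (x + (s : ℂ) * t)) (f x) ^ 2 ≤ s ^ 2 * A := by
  sorry

end H46MB
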